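import Pool.Agent.U96.MCG.Part

/-!
# Measures on complete Boolean algebras from countably generated complete subalgebras

The definitions (`IsMeasure`, `IsCompleteSubalgebra`, `IsCountablyGenerated`) are in
`Pool/Agent/U96/MCG/Basic.lean`.

Let `B` be a complete Boolean algebra all of whose countably generated complete subalgebras admit a
measure, and let `m` be a strictly positive monotone function on `B`, continuous from above at `0`
(for instance a continuous outer measure).

1. On a complete subalgebra with a measure `μ`, for every `ε > 0` there is `δ > 0` such that
   `m c ≥ ε` implies `μ c ≥ δ`. As countably many countably generated subalgebras lie in one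
   countably generated subalgebra, `δ` can be chosen independently of the subalgebra (if the
   measures are normalized).
2. By compactness there are finitely additive probabilities `μ_n` on `B` and `δ_n > 0` such that
   `m c ≥ 1/(n+1)` implies `μ_n c ≥ δ_n`. The sum `∑ 2^{-n} μ_n` is finitely additive and strictly
   positive.
3. Its countably additive part `b ↦ inf ∑ μ(b_i)`, the infimum over the countable partitions of `b`,
   is strictly positive, because `B` is weakly distributive: countably many partitions lie in a
   countably generated complete subalgebra.
-/

set_option autoImplicit false

universe u

namespace Pool.Agent.Results.MP_2d6919_lc.MeasureFromSubalgebras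

open Pool.Agent.U96.MCG Filter Topology

/-- Let `B` be a complete Boolean algebra such that every countably generated complete subalgebra
admits a measure. If there is a function `m : B → ℝ` which is strictly positive on the nonzero
elements, monotone, and continuous from above at `0` (for example a continuous outer measure), then
`B` admits a measure. -/
theorem result {B : Type u} [CompleteBooleanAlgebra B]
    (H : ∀ A : BooleanSubalgebra B, IsCountablyGenerated A → ∃ μ : A → ℝ, IsMeasure μ)
    (m : B → ℝ) (hpos : ∀ a : B, a ≠ ⊥ → 0 < m a) (hmono : ∀ a b : B, a ≤ b → m a ≤ m b)
    (hcont : ∀ a : ℕ → B, Antitone a → ⨅ n, a n = ⊥ → Tendsto (fun n => m (a n)) atTop (𝓝 0)) :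
    ∃ μ : B → ℝ, IsMeasure μ :=
  main H hpos (fun a b => hmono a b) hcont

end Pool.Agent.Results.MP_2d6919_lc.MeasureFromSubalgebras
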